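import Mathlib
import Pool.Agent.Y734.I.StmsF
import Pool.Agent.Y734.I.QAlg

/-!
# Finitely many curves: linear algebra
-/

set_option autoImplicit false

namespace Pool.Agent.Y734.I.FINB

open Pool.Agent.Y734.I MvPolynomial

/-- a rational vector as a complex vector -/
def vc (v : Fin 3 → ℚ) : Fin 3 → ℂ := fun j => ((v j : ℚ) : ℂ)

lemma ev3 (l : Fin 3 → ℚ) (x : Fin 3 → ℂ) :
    ev (N := 2) l x = (l 0 : ℂ) * x 0 + (l 1 : ℂ) * x 1 + (l 2 : ℂ) * x 2 :=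
  Fin.sum_univ_three _

lemma ev_vc (l v : Fin 3 → ℚ) : ev (N := 2) l (vc v) = ((dt3 l v : ℚ) : ℂ) := by
  rw [ev3]
  unfold dt3 vc
  push_cast
  ring

lemma ev_smul (l : Fin 3 → ℚ) (a : ℂ) (x : Fin 3 → ℂ) :
    ev (N := 2) l (a • x) = a * ev (N := 2) l x := by
  rw [ev3, ev3]
  simp only [Pi.smul_apply, smul_eq_mul]
  ring

lemma ev_add (l : Fin 3 → ℚ) (x y : Fin 3 → ℂ) :
    ev (N := 2) l (x + y) = ev (N := 2) l x + ev (N := 2) l y := by
  rw [ev3, ev3, ev3]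
  simp only [Pi.add_apply]
  ring

lemma ev_sub (l : Fin 3 → ℚ) (x y : Fin 3 → ℂ) :
    ev (N := 2) l (x - y) = ev (N := 2) l x - ev (N := 2) l y := by
  rw [ev3, ev3, ev3]
  simp only [Pi.sub_apply]
  ring

lemma ev_zero (l : Fin 3 → ℚ) : ev (N := 2) l (0 : Fin 3 → ℂ) = 0 := by
  rw [ev3]
  simp

lemma vc_ne {v : Fin 3 → ℚ} (hv : v ≠ 0) : vc v ≠ 0 := by
  intro h
  apply hv
  funext j
  have := congrFun h j
  simpa [vc] using this

/-- three independent forms have no common zero -/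
lemma zero_of {a b c : Fin 3 → ℚ} (h : LinearIndependent ℚ ![a, b, c]) {y : Fin 3 → ℂ}
    (ha : ev (N := 2) a y = 0) (hb : ev (N := 2) b y = 0) (hc : ev (N := 2) c y = 0) : y = 0 := by
  have hd : ((dt3 a (crs b c) : ℚ) : ℂ) ≠ 0 := by exact_mod_cast dt3_ne h
  rw [ev3] at ha hb hc
  unfold dt3 crs at hd
  simp only [Matrix.cons_val_zero, Matrix.cons_val_one, Matrix.cons_val] at hd
  push_cast at hd
  funext j
  fin_cases j
  · refine (mul_eq_zero.1 ?_).resolve_left hd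
    simp only [Fin.zero_eta]
    linear_combination ((b 1 : ℂ) * c 2 - b 2 * c 1) * ha + ((c 1 : ℂ) * a 2 - c 2 * a 1) * hb +
      ((a 1 : ℂ) * b 2 - a 2 * b 1) * hc
  · refine (mul_eq_zero.1 ?_).resolve_left hd
    simp only [Fin.mk_one]
    linear_combination ((b 2 : ℂ) * c 0 - b 0 * c 2) * ha + ((c 2 : ℂ) * a 0 - c 0 * a 2) * hb +
      ((a 2 : ℂ) * b 0 - a 0 * b 2) * hc
  · refine (mul_eq_zero.1 ?_).resolve_left hd
    simp only [Fin.reduceFinMk]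
    linear_combination ((b 0 : ℂ) * c 1 - b 1 * c 0) * ha + ((c 0 : ℂ) * a 1 - c 1 * a 0) * hb +
      ((a 0 : ℂ) * b 1 - a 1 * b 0) * hc

/-- proportional vectors -/
lemma prop_of {a b : Fin 3 → ℚ} (ha : a ≠ 0) (h : crs a b = 0) : ∃ c : ℚ, b = c • a := by
  have h0 := congrFun h 0
  have h1 := congrFun h 1
  have h2 := congrFun h 2
  unfold crs at h0 h1 h2
  simp only [Matrix.cons_val_zero, Matrix.cons_val_one, Matrix.cons_val, Pi.zero_apply] at h0 h1 h2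
  obtain ⟨j, hj⟩ : ∃ j, a j ≠ 0 := by
    by_contra hcon
    push Not at hcon
    exact ha (funext hcon)
  refine ⟨b j / a j, funext fun k => ?_⟩
  rw [Pi.smul_apply, smul_eq_mul, div_mul_eq_mul_div, eq_div_iff hj]
  fin_cases j <;> fin_cases k <;>
    simp only [Fin.zero_eta, Fin.mk_one, Fin.reduceFinMk] at hj ⊢ <;> linarith

/-- a vector orthogonal to two vectors is proportional to their product -/
lemma crs_perp {v w h : Fin 3 → ℚ} (hv : dt3 h v = 0) (hw : dt3 h w = 0) :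
    crs (crs v w) h = 0 := by
  unfold dt3 at hv hw
  funext j
  fin_cases j <;> simp [crs]
  · linear_combination (w 0) * hv - (v 0) * hw
  · linear_combination (w 1) * hv - (v 1) * hw
  · linear_combination (w 2) * hv - (v 2) * hw

variable {H : Fin 6 → Fin 3 → ℚ}

/-- the common point of two of the lines -/
abbrev V (H : Fin 6 → Fin 3 → ℚ) (i j : Fin 6) : Fin 3 → ℚ := crs (H i) (H j)

lemma V_ne (hH : GP3 H) {i j k : Fin 6} (h1 : i ≠ j) (h2 : i ≠ k) (h3 : j ≠ k) :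
    dt3 (H k) (V H i j) ≠ 0 := dt3_ne (hH k i j h2.symm h3.symm h1)

lemma evV_ne (hH : GP3 H) {i j k : Fin 6} (h1 : i ≠ j) (h2 : i ≠ k) (h3 : j ≠ k) :
    ev (N := 2) (H k) (vc (V H i j)) ≠ 0 := by
  rw [ev_vc]
  exact_mod_cast V_ne hH h1 h2 h3

lemma evV_left (i j : Fin 6) : ev (N := 2) (H i) (vc (V H i j)) = 0 := by
  rw [ev_vc, dt3_left, Rat.cast_zero]

lemma evV_right (i j : Fin 6) : ev (N := 2) (H j) (vc (V H i j)) = 0 := by
  rw [ev_vc, dt3_right, Rat.cast_zero]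

lemma third (i j : Fin 6) : ∃ k, i ≠ k ∧ j ≠ k := by
  revert i j
  decide

lemma vcV_ne (hH : GP3 H) {i j : Fin 6} (h1 : i ≠ j) : vc (V H i j) ≠ 0 := by
  obtain ⟨k, h2, h3⟩ := third i j
  intro h
  apply evV_ne hH h1 h2 h3
  rw [h, ev_zero]

lemma Vne0 (hH : GP3 H) {i j : Fin 6} (h1 : i ≠ j) : V H i j ≠ 0 := by
  intro h
  apply vcV_ne hH h1
  rw [h]
  funext j
  simp [vc]

/-- coordinates on the line `i` -/
lemma line_coord (hH : GP3 H) {i j k : Fin 6} (h1 : i ≠ j) (h2 : i ≠ k) (h3 : j ≠ k)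
    {x : Fin 3 → ℂ} (hx : ev (N := 2) (H i) x = 0) :
    x = (ev (N := 2) (H k) x / ev (N := 2) (H k) (vc (V H i j))) • vc (V H i j) +
      (ev (N := 2) (H j) x / ev (N := 2) (H j) (vc (V H i k))) • vc (V H i k) := by
  have hk := evV_ne hH h1 h2 h3
  have hj := evV_ne hH h2 h1 h3.symm
  rw [← sub_eq_zero]
  refine zero_of (hH i j k h1 h2 h3) ?_ ?_ ?_
  · rw [ev_sub, ev_add, ev_smul, ev_smul, evV_left, evV_left, hx]
    ring
  · rw [ev_sub, ev_add, ev_smul, ev_smul, evV_right]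
    field_simp
    ring
  · rw [ev_sub, ev_add, ev_smul, ev_smul, evV_right]
    field_simp
    ring

/-- coordinates in the plane -/
lemma plane_coord (hH : GP3 H) {i j k : Fin 6} (h1 : i ≠ j) (h2 : i ≠ k) (h3 : j ≠ k)
    (x : Fin 3 → ℂ) : ∃ a b c : ℂ,
      x = a • vc (V H i j) + b • vc (V H i k) + c • vc (V H j k) := by
  have hk := evV_ne hH h1 h2 h3
  have hj := evV_ne hH h2 h1 h3.symm
  have hi := evV_ne hH h3 h1.symm h2.symm
  refine ⟨ev (N := 2) (H k) x / ev (N := 2) (H k) (vc (V H i j)),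
    ev (N := 2) (H j) x / ev (N := 2) (H j) (vc (V H i k)),
    ev (N := 2) (H i) x / ev (N := 2) (H i) (vc (V H j k)), ?_⟩
  rw [← sub_eq_zero]
  refine zero_of (hH i j k h1 h2 h3) ?_ ?_ ?_
  · rw [ev_sub, ev_add, ev_add, ev_smul, ev_smul, ev_smul, evV_left, evV_left]
    field_simp
    ring
  · rw [ev_sub, ev_add, ev_add, ev_smul, ev_smul, ev_smul, evV_right i j, evV_left j k]
    field_simp
    ring
  · rw [ev_sub, ev_add, ev_add, ev_smul, ev_smul, ev_smul, evV_right i k, evV_right j k]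
    field_simp
    ring

/-- the common points of two lines -/
lemma common (hH : GP3 H) {i j : Fin 6} (h1 : i ≠ j) {p : Fin 3 → ℂ} (hp : p ≠ 0)
    (hi : ev (N := 2) (H i) p = 0) (hj : ev (N := 2) (H j) p = 0) :
    ∃ a : ℂ, a ≠ 0 ∧ p = a • vc (V H i j) := by
  obtain ⟨k, h2, h3⟩ := third i j
  have h := line_coord hH h1 h2 h3 hi
  rw [hj, zero_div, zero_smul, add_zero] at h
  refine ⟨_, ?_, h⟩
  intro h0
  rw [h0, zero_smul] at h
  exact hp h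

/-- quadratic forms -/
lemma quad {G : MvPolynomial (Fin 3) ℚ} (hG : G.IsHomogeneous 2) :
    ∃ q : Fin 6 → ℂ, ∀ x : Fin 3 → ℂ, aeval x G = q 0 * x 0 ^ 2 + q 1 * x 1 ^ 2 + q 2 * x 2 ^ 2 +
      q 3 * (x 0 * x 1) + q 4 * (x 0 * x 2) + q 5 * (x 1 * x 2) := by
  have key : ∀ d : Fin 3 →₀ ℕ, d 0 + d 1 + d 2 = 2 → ∀ c : ℚ, ∃ q : Fin 6 → ℂ,
      ∀ x : Fin 3 → ℂ, aeval x (monomial d c) = q 0 * x 0 ^ 2 + q 1 * x 1 ^ 2 + q 2 * x 2 ^ 2 +
      q 3 * (x 0 * x 1) + q 4 * (x 0 * x 2) + q 5 * (x 1 * x 2) := by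
    intro d hd c
    have h1 : ∀ x : Fin 3 → ℂ, aeval x (monomial d c) =
        (c : ℂ) * (x 0 ^ d 0 * x 1 ^ d 1 * x 2 ^ d 2) := by
      intro x
      rw [aeval_monomial, Finsupp.prod_fintype _ _ (fun i => pow_zero _), Fin.prod_univ_three]
      rfl
    have h2 : (d 0 = 2 ∧ d 1 = 0 ∧ d 2 = 0) ∨ (d 0 = 0 ∧ d 1 = 2 ∧ d 2 = 0) ∨
        (d 0 = 0 ∧ d 1 = 0 ∧ d 2 = 2) ∨ (d 0 = 1 ∧ d 1 = 1 ∧ d 2 = 0) ∨
        (d 0 = 1 ∧ d 1 = 0 ∧ d 2 = 1) ∨ (d 0 = 0 ∧ d 1 = 1 ∧ d 2 = 1) := by omega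
    rcases h2 with ⟨a, b, e⟩ | ⟨a, b, e⟩ | ⟨a, b, e⟩ | ⟨a, b, e⟩ | ⟨a, b, e⟩ | ⟨a, b, e⟩
    · exact ⟨![c, 0, 0, 0, 0, 0], fun x => by rw [h1, a, b, e]; simp⟩
    · exact ⟨![0, c, 0, 0, 0, 0], fun x => by rw [h1, a, b, e]; simp⟩
    · exact ⟨![0, 0, c, 0, 0, 0], fun x => by rw [h1, a, b, e]; simp⟩
    · exact ⟨![0, 0, 0, c, 0, 0], fun x => by rw [h1, a, b, e]; simp⟩
    · exact ⟨![0, 0, 0, 0, c, 0], fun x => by rw [h1, a, b, e]; simp⟩
    · exact ⟨![0, 0, 0, 0, 0, c], fun x => by rw [h1, a, b, e]; simp⟩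
  rw [G.as_sum]
  refine Finset.sum_induction _ (fun F : MvPolynomial (Fin 3) ℚ => ∃ q : Fin 6 → ℂ,
    ∀ x : Fin 3 → ℂ, aeval x F = q 0 * x 0 ^ 2 + q 1 * x 1 ^ 2 + q 2 * x 2 ^ 2 +
      q 3 * (x 0 * x 1) + q 4 * (x 0 * x 2) + q 5 * (x 1 * x 2)) ?_ ?_ ?_
  · rintro A B ⟨q, hq⟩ ⟨q', hq'⟩
    refine ⟨fun i => q i + q' i, fun x => ?_⟩
    rw [map_add, hq, hq']
    ring
  · exact ⟨0, fun x => by simp⟩
  · intro d hd
    refine key d ?_ _
    have h1 := hG (mem_support_iff.1 hd)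
    rw [Finsupp.weight_apply, Finsupp.sum_fintype _ _ (fun i => by simp),
      Fin.sum_univ_three] at h1
    simpa using h1

/-- linear forms -/
lemma linf {G : MvPolynomial (Fin 3) ℚ} (hG : G.IsHomogeneous 1) :
    ∃ h : Fin 3 → ℚ, ∀ x : Fin 3 → ℂ, aeval x G = ev (N := 2) h x := by
  have key : ∀ d : Fin 3 →₀ ℕ, d 0 + d 1 + d 2 = 1 → ∀ c : ℚ, ∃ h : Fin 3 → ℚ,
      ∀ x : Fin 3 → ℂ, aeval x (monomial d c) = ev (N := 2) h x := by
    intro d hd c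
    have h1 : ∀ x : Fin 3 → ℂ, aeval x (monomial d c) =
        (c : ℂ) * (x 0 ^ d 0 * x 1 ^ d 1 * x 2 ^ d 2) := by
      intro x
      rw [aeval_monomial, Finsupp.prod_fintype _ _ (fun i => pow_zero _), Fin.prod_univ_three]
      rfl
    have h2 : (d 0 = 1 ∧ d 1 = 0 ∧ d 2 = 0) ∨ (d 0 = 0 ∧ d 1 = 1 ∧ d 2 = 0) ∨
        (d 0 = 0 ∧ d 1 = 0 ∧ d 2 = 1) := by omega
    rcases h2 with ⟨a, b, e⟩ | ⟨a, b, e⟩ | ⟨a, b, e⟩
    · exact ⟨![c, 0, 0], fun x => by rw [h1, ev3, a, b, e]; simp⟩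
    · exact ⟨![0, c, 0], fun x => by rw [h1, ev3, a, b, e]; simp⟩
    · exact ⟨![0, 0, c], fun x => by rw [h1, ev3, a, b, e]; simp⟩
  rw [G.as_sum]
  refine Finset.sum_induction _ (fun F : MvPolynomial (Fin 3) ℚ => ∃ h : Fin 3 → ℚ,
    ∀ x : Fin 3 → ℂ, aeval x F = ev (N := 2) h x) ?_ ?_ ?_
  · rintro A B ⟨q, hq⟩ ⟨q', hq'⟩
    refine ⟨fun i => q i + q' i, fun x => ?_⟩
    rw [map_add, hq, hq', ev3, ev3, ev3]
    push_cast
    ring
  · exact ⟨0, fun x => by rw [ev3]; simp⟩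
  · intro d hd
    refine key d ?_ _
    have h1 := hG (mem_support_iff.1 hd)
    rw [Finsupp.weight_apply, Finsupp.sum_fintype _ _ (fun i => by simp),
      Fin.sum_univ_three] at h1
    simpa using h1

/-- the polar form -/
def Pol (q : Fin 6 → ℂ) (x y : Fin 3 → ℂ) : ℂ := 2 * q 0 * (x 0 * y 0) + 2 * q 1 * (x 1 * y 1) +
  2 * q 2 * (x 2 * y 2) + q 3 * (x 0 * y 1 + x 1 * y 0) + q 4 * (x 0 * y 2 + x 2 * y 0) +
  q 5 * (x 1 * y 2 + x 2 * y 1)

/-- a function which is a quadratic form -/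
structure QF (g : (Fin 3 → ℂ) → ℂ) (P : (Fin 3 → ℂ) → (Fin 3 → ℂ) → ℂ) : Prop where
  smul : ∀ (a : ℂ) x, g (a • x) = a ^ 2 * g x
  two : ∀ (a b : ℂ) x y, g (a • x + b • y) = a ^ 2 * g x + a * b * P x y + b ^ 2 * g y
  three : ∀ (a b c : ℂ) x y z, g (a • x + b • y + c • z) = a ^ 2 * g x + b ^ 2 * g y +
    c ^ 2 * g z + a * b * P x y + a * c * P x z + b * c * P y z

lemma qf_of {G : MvPolynomial (Fin 3) ℚ} (hG : G.IsHomogeneous 2) :
    ∃ P, QF (fun x : Fin 3 → ℂ => aeval x G) P := by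
  obtain ⟨q, hq⟩ := quad hG
  refine ⟨Pol q, ?_, ?_, ?_⟩
  · intro a x
    simp only [hq, Pi.smul_apply, smul_eq_mul]
    ring
  · intro a b x y
    simp only [hq, Pi.smul_apply, Pi.add_apply, smul_eq_mul, Pol]
    ring
  · intro a b c x y z
    simp only [hq, Pi.smul_apply, Pi.add_apply, smul_eq_mul, Pol]
    ring

/-- monic quadratic polynomials with the same zeros -/
lemma quad_eq {b c b' c' : ℂ} (h : ∀ z : ℂ, z ^ 2 + b * z + c = 0 ↔ z ^ 2 + b' * z + c' = 0) :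
    b = b' ∧ c = c' := by
  obtain ⟨s, hs⟩ := IsAlgClosed.exists_pow_nat_eq (b ^ 2 - 4 * c) two_pos
  set α : ℂ := (-b + s) / 2 with hα
  have h1 : α ^ 2 + b * α + c = 0 := by
    rw [hα]
    linear_combination hs / 4
  have h1' := (h α).1 h1
  have h2 : (-b - α) ^ 2 + b * (-b - α) + c = 0 := by linear_combination h1
  have h2' : (-b' - α) ^ 2 + b' * (-b' - α) + c' = 0 := by linear_combination h1'
  -- the second roots agree
  have h3 : (-b' - α) = (-b - α) := by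
    have e1 := (h _).1 h2
    have e2 := (h _).2 h2'
    -- the second root of the second polynomial is a root of the first one
    have f2 : ((-b' - α) - α) * ((-b' - α) - (-b - α)) = 0 := by linear_combination e2 - h1
    have f1 : ((-b - α) - α) * ((-b - α) - (-b' - α)) = 0 := by linear_combination e1 - h1'
    rcases mul_eq_zero.1 f2 with f2 | f2
    · rcases mul_eq_zero.1 f1 with f1 | f1
      · linear_combination f2 - f1
      · linear_combination -f1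
    · linear_combination f2
  have h4 : b = b' := by linear_combination h3
  refine ⟨h4, ?_⟩
  linear_combination h1 - h1' - α * h4

end Pool.Agent.Y734.I.FINB
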