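import Mathlib
import Pool.Agent.Y734.I.FINB.Alg

/-!
# There are only finitely many lines and conics with at most four points on six lines
-/

set_option autoImplicit false

namespace Pool.Agent.Y734.I.FINB

open Pool.Agent.Y734.I MvPolynomial

variable {H : Fin 6 → Fin 3 → ℚ}

/-- the curve does not contain a line -/
lemma not_line (hH : GP3 H) {G : MvPolynomial (Fin 3) ℚ} (hG : At4 H G) (i : Fin 6) :
    ¬ ∀ x : Fin 3 → ℂ, ev (N := 2) (H i) x = 0 → aeval x G = 0 := by
  intro h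
  obtain ⟨k, l, hkl, c, hc⟩ := hG (fun k => vc (V H i (i.succAbove k)))
    (fun k => vcV_ne hH (Fin.succAbove_ne i k).symm)
    (fun k => h _ (evV_left i _)) (fun k => ⟨i, evV_left i _⟩)
  have h1 : ev (N := 2) (H (i.succAbove l)) (vc (V H i (i.succAbove k))) = 0 := by
    have h2 := congrArg (ev (N := 2) (H (i.succAbove l))) hc
    rw [ev_smul, evV_right, mul_zero] at h2
    exact h2
  exact evV_ne hH (Fin.succAbove_ne i k).symm (Fin.succAbove_ne i l).symm
    (fun h3 => hkl (Fin.succAbove_right_injective h3)) h1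

/-- a quadratic form which vanishes at three points of a line -/
lemma vanish (hH : GP3 H) {g : (Fin 3 → ℂ) → ℂ} {P : (Fin 3 → ℂ) → (Fin 3 → ℂ) → ℂ}
    (hg : QF g P) {i a b c : Fin 6} (ha : a ≠ i) (hb : b ≠ i) (hc : c ≠ i) (hab : a ≠ b)
    (hac : a ≠ c) (hbc : b ≠ c) (h1 : g (vc (V H i a)) = 0) (h2 : g (vc (V H i b)) = 0)
    (h3 : g (vc (V H i c)) = 0) : ∀ x : Fin 3 → ℂ, ev (N := 2) (H i) x = 0 → g x = 0 := by
  have h4 := line_coord hH ha.symm hb.symm hab (evV_left (H := H) i c)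
  have s0 : ev (N := 2) (H b) (vc (V H i c)) / ev (N := 2) (H b) (vc (V H i a)) ≠ 0 :=
    div_ne_zero (evV_ne hH hc.symm hb.symm hbc.symm) (evV_ne hH ha.symm hb.symm hab)
  have t0 : ev (N := 2) (H a) (vc (V H i c)) / ev (N := 2) (H a) (vc (V H i b)) ≠ 0 :=
    div_ne_zero (evV_ne hH hc.symm ha.symm hac.symm) (evV_ne hH hb.symm ha.symm hab.symm)
  rw [h4, hg.two, h1, h2, mul_zero, mul_zero, zero_add, add_zero] at h3
  have hP : P (vc (V H i a)) (vc (V H i b)) = 0 :=
    (mul_eq_zero.1 h3).resolve_left (mul_ne_zero s0 t0)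
  intro x hx
  rw [line_coord hH ha.symm hb.symm hab hx, hg.two, h1, h2, hP]
  ring

lemma three_others (i j : Fin 6) : ∃ a b c : Fin 6, a ≠ i ∧ b ≠ i ∧ c ≠ i ∧ a ≠ j ∧ b ≠ j ∧
    c ≠ j ∧ a ≠ b ∧ a ≠ c ∧ b ≠ c := by
  revert i j
  decide

/-- two double points outside of the conic -/
lemma two_out (hH : GP3 H) {G : MvPolynomial (Fin 3) ℚ} (hG : At4 H G)
    {P : (Fin 3 → ℂ) → (Fin 3 → ℂ) → ℂ} (hg : QF (fun x => aeval x G) P) (i : Fin 6) :
    ∃ j k : Fin 6, j ≠ i ∧ k ≠ i ∧ j ≠ k ∧ aeval (vc (V H i j)) G ≠ 0 ∧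
      aeval (vc (V H i k)) G ≠ 0 := by
  by_contra hcon
  push Not at hcon
  by_cases hj : ∃ j, j ≠ i ∧ aeval (vc (V H i j)) G ≠ 0
  · obtain ⟨j, h1, h2⟩ := hj
    obtain ⟨a, b, c, ha, hb, hc, ha', hb', hc', hab, hac, hbc⟩ := three_others i j
    exact not_line hH hG i (vanish hH hg ha hb hc hab hac hbc (hcon j a h1 ha ha'.symm h2)
      (hcon j b h1 hb hb'.symm h2) (hcon j c h1 hc hc'.symm h2))
  · push Not at hj
    obtain ⟨a, b, c, ha, hb, hc, _, _, _, hab, hac, hbc⟩ := three_others i i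
    exact not_line hH hG i (vanish hH hg ha hb hc hab hac hbc (hj a ha) (hj b hb) (hj c hc))

/-- the second alternative -/
def Alt (H : Fin 6 → Fin 3 → ℚ) (g : (Fin 3 → ℂ) → ℂ) : Prop :=
  ∀ (i : Fin 6) (p : Fin 3 → ℂ), p ≠ 0 → ev (N := 2) (H i) p = 0 → g p = 0 →
    ∃ j, j ≠ i ∧ ev (N := 2) (H j) p = 0

/-- transfer of zeros -/
lemma transfer (hH : GP3 H) {g g' : (Fin 3 → ℂ) → ℂ} {P P' : (Fin 3 → ℂ) → (Fin 3 → ℂ) → ℂ}
    (hg : QF g P) (hg' : QF g' P') (ha : Alt H g)
    (hz : ∀ i j, i ≠ j → g (vc (V H i j)) = 0 → g' (vc (V H i j)) = 0) {i : Fin 6}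
    {p : Fin 3 → ℂ} (hp : p ≠ 0) (hi : ev (N := 2) (H i) p = 0) (h0 : g p = 0) : g' p = 0 := by
  obtain ⟨j, hj, hjp⟩ := ha i p hp hi h0
  obtain ⟨a, ha0, rfl⟩ := common hH hj.symm hp hi hjp
  rw [hg.smul] at h0
  have h1 := (mul_eq_zero.1 h0).resolve_left (pow_ne_zero 2 ha0)
  rw [hg'.smul, hz i j hj.symm h1, mul_zero]

/-- two conics with the same double points are proportional on each line -/
lemma compare (hH : GP3 H) {g g' : (Fin 3 → ℂ) → ℂ} {P P' : (Fin 3 → ℂ) → (Fin 3 → ℂ) → ℂ}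
    (hg : QF g P) (hg' : QF g' P') (ha : Alt H g) (ha' : Alt H g')
    (hz : ∀ i j, i ≠ j → (g (vc (V H i j)) = 0 ↔ g' (vc (V H i j)) = 0)) {i j : Fin 6}
    (hij : i ≠ j) (h0 : g (vc (V H i j)) ≠ 0) {x : Fin 3 → ℂ}
    (hx : ev (N := 2) (H i) x = 0) :
    g' (vc (V H i j)) * g x = g (vc (V H i j)) * g' x := by
  have h0' : g' (vc (V H i j)) ≠ 0 := fun h => h0 ((hz i j hij).2 h)
  obtain ⟨k, hik, hjk⟩ := third i j
  set v := vc (V H i j) with hv
  set u := vc (V H i k) with hu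
  have key : ∀ z : ℂ, z ^ 2 + (P v u / g v) * z + g u / g v = 0 ↔
      z ^ 2 + (P' v u / g' v) * z + g' u / g' v = 0 := by
    intro z
    have hp : z • v + (1 : ℂ) • u ≠ 0 := by
      intro h
      have h1 := congrArg (ev (N := 2) (H j)) h
      rw [ev_add, ev_smul, ev_smul, ev_zero, hv, evV_right, mul_zero, zero_add, one_mul] at h1
      exact evV_ne hH hik hij hjk.symm h1
    have hl : ev (N := 2) (H i) (z • v + (1 : ℂ) • u) = 0 := by
      rw [ev_add, ev_smul, ev_smul, hv, hu, evV_left, evV_left]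
      ring
    have e1 : z ^ 2 + (P v u / g v) * z + g u / g v = 0 ↔ g (z • v + (1 : ℂ) • u) = 0 := by
      rw [hg.two]
      constructor
      · intro h
        field_simp at h
        linear_combination h
      · intro h
        field_simp
        linear_combination h
    have e2 : z ^ 2 + (P' v u / g' v) * z + g' u / g' v = 0 ↔ g' (z • v + (1 : ℂ) • u) = 0 := by
      rw [hg'.two]
      constructor
      · intro h
        field_simp at h
        linear_combination h
      · intro h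
        field_simp
        linear_combination h
    rw [e1, e2]
    exact ⟨transfer hH hg hg' ha (fun i j h => (hz i j h).1) hp hl,
      transfer hH hg' hg ha' (fun i j h => (hz i j h).2) hp hl⟩
  obtain ⟨k1, k2⟩ := quad_eq key
  have k1' : P v u * g' v = P' v u * g v := by
    field_simp at k1
    linear_combination k1
  have k2' : g u * g' v = g' u * g v := by
    field_simp at k2
    linear_combination k2
  rw [line_coord hH hij hik hjk hx, hg.two, hg'.two, ← hv, ← hu]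
  set s := ev (N := 2) (H k) x / ev (N := 2) (H k) v
  set t := ev (N := 2) (H j) x / ev (N := 2) (H j) u
  linear_combination s * t * k1' + t ^ 2 * k2'

lemma vc_swap (i j : Fin 6) : vc (V H j i) = (-1 : ℂ) • vc (V H i j) := by
  funext m
  fin_cases m <;> simp [vc, crs] <;> ring

/-- two conics with the same double points -/
lemma conic (hH : GP3 H) {G G' : MvPolynomial (Fin 3) ℚ} (h2 : G.IsHomogeneous 2)
    (h2' : G'.IsHomogeneous 2) (hG : At4 H G) (ha : Alt H fun x => aeval x G)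
    (ha' : Alt H fun x => aeval x G')
    (hz : ∀ i j, i ≠ j → (aeval (vc (V H i j)) G = 0 ↔ aeval (vc (V H i j)) G' = 0))
    (x : Fin 3 → ℂ) (hx : aeval x G = 0) : aeval x G' = 0 := by
  obtain ⟨P, hg⟩ := qf_of h2
  obtain ⟨P', hg'⟩ := qf_of h2'
  obtain ⟨j, k, hj, hk, hjk, n1, n2⟩ := two_out hH hG hg 0
  set g : (Fin 3 → ℂ) → ℂ := fun x => aeval x G with hgd
  set g' : (Fin 3 → ℂ) → ℂ := fun x => aeval x G' with hgd'
  have n1' : g' (vc (V H 0 j)) ≠ 0 := fun h => n1 ((hz 0 j hj.symm).2 h)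
  have n2' : g' (vc (V H 0 k)) ≠ 0 := fun h => n2 ((hz 0 k hk.symm).2 h)
  set c : ℂ := g (vc (V H 0 j)) with hc
  set c' : ℂ := g' (vc (V H 0 j)) with hc'
  have l0 : ∀ y : Fin 3 → ℂ, ev (N := 2) (H 0) y = 0 → c' * g y = c * g' y := fun y hy =>
    compare hH hg hg' ha ha' hz hj.symm n1 hy
  have sw : ∀ i j, g (vc (V H j i)) = g (vc (V H i j)) ∧ g' (vc (V H j i)) = g' (vc (V H i j)) := by
    intro i j
    rw [vc_swap, hg.smul, hg'.smul]
    constructor <;> ring
  have lj : ∀ y : Fin 3 → ℂ, ev (N := 2) (H j) y = 0 → c' * g y = c * g' y := by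
    intro y hy
    have h := compare hH hg hg' ha ha' hz hj (i := j) (j := 0) (by rw [(sw 0 j).1]; exact n1) hy
    rw [(sw 0 j).1, (sw 0 j).2] at h
    exact h
  have lk : ∀ y : Fin 3 → ℂ, ev (N := 2) (H k) y = 0 → c' * g y = c * g' y := by
    intro y hy
    have h := compare hH hg hg' ha ha' hz hk (i := k) (j := 0) (by rw [(sw 0 k).1]; exact n2) hy
    rw [(sw 0 k).1, (sw 0 k).2] at h
    have h3 := l0 _ (evV_left (H := H) 0 k)
    have h4 : g' (vc (V H 0 k)) * (c' * g y - c * g' y) = 0 := by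
      linear_combination c' * h + g' y * h3
    have h5 := (mul_eq_zero.1 h4).resolve_left n2'
    linear_combination h5
  -- the difference vanishes
  obtain ⟨a, b, d, hx'⟩ := plane_coord hH hj.symm hk.symm hjk x
  have p1 : c' * P (vc (V H 0 j)) (vc (V H 0 k)) = c * P' (vc (V H 0 j)) (vc (V H 0 k)) := by
    have h := l0 ((1 : ℂ) • vc (V H 0 j) + (1 : ℂ) • vc (V H 0 k)) (by
      rw [ev_add, ev_smul, ev_smul, evV_left, evV_left]; ring)
    rw [hg.two, hg'.two] at h
    have e1 := l0 _ (evV_left (H := H) 0 j)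
    have e2 := l0 _ (evV_left (H := H) 0 k)
    linear_combination h - e1 - e2
  have p2 : c' * P (vc (V H 0 j)) (vc (V H j k)) = c * P' (vc (V H 0 j)) (vc (V H j k)) := by
    have h := lj ((1 : ℂ) • vc (V H 0 j) + (1 : ℂ) • vc (V H j k)) (by
      rw [ev_add, ev_smul, ev_smul, evV_left, evV_right]; ring)
    rw [hg.two, hg'.two] at h
    have e1 := lj _ (evV_right (H := H) 0 j)
    have e2 := lj _ (evV_left (H := H) j k)
    linear_combination h - e1 - e2
  have p3 : c' * P (vc (V H 0 k)) (vc (V H j k)) = c * P' (vc (V H 0 k)) (vc (V H j k)) := by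
    have h := lk ((1 : ℂ) • vc (V H 0 k) + (1 : ℂ) • vc (V H j k)) (by
      rw [ev_add, ev_smul, ev_smul, evV_right, evV_right]; ring)
    rw [hg.two, hg'.two] at h
    have e1 := lk _ (evV_right (H := H) 0 k)
    have e2 := lk _ (evV_right (H := H) j k)
    linear_combination h - e1 - e2
  have e1 := l0 _ (evV_left (H := H) 0 j)
  have e2 := l0 _ (evV_left (H := H) 0 k)
  have e3 := lj _ (evV_left (H := H) j k)
  have h5 : c' * g x = c * g' x := by
    rw [hx', hg.three, hg'.three]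
    linear_combination a ^ 2 * e1 + b ^ 2 * e2 + d ^ 2 * e3 + a * b * p1 + a * d * p2 +
      b * d * p3
  have h6 : g x = 0 := hx
  rw [h6, mul_zero] at h5
  exact (mul_eq_zero.1 h5.symm).resolve_left n1

/-- the zero set is a line -/
def Lin (G : MvPolynomial (Fin 3) ℚ) : Prop :=
  ∃ h : Fin 3 → ℚ, h ≠ 0 ∧ ∀ x : Fin 3 → ℂ, aeval x G = 0 ↔ ev (N := 2) h x = 0

/-- two of five of the points are equal -/
lemma double (hH : GP3 H) {G : MvPolynomial (Fin 3) ℚ} (hG : At4 H G) {h : Fin 3 → ℚ}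
    (h0 : h ≠ 0) (hh : ∀ x : Fin 3 → ℂ, aeval x G = 0 ↔ ev (N := 2) h x = 0)
    (f : Fin 5 → Fin 6) (hf : Function.Injective f) :
    ∃ k l, k ≠ l ∧ dt3 h (V H (f k) (f l)) = 0 := by
  have h1 : ∀ i, crs h (H i) ≠ 0 := by
    intro i hi
    have hswap : crs (H i) h = 0 := by
      have e : crs (H i) h = -crs h (H i) := by
        funext m
        fin_cases m <;> simp [crs] <;> ring
      rw [e, hi, neg_zero]
    have hHi : H i ≠ 0 := by
      intro hi0
      obtain ⟨k, hik, _⟩ := third i i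
      apply Vne0 hH hik
      unfold V
      rw [hi0]
      funext m
      fin_cases m <;> simp [crs]
    obtain ⟨c, hc⟩ := prop_of hHi hswap
    apply not_line hH hG i
    intro x hx
    rw [hh, hc, ev3]
    rw [ev3] at hx
    simp only [Pi.smul_apply, smul_eq_mul]
    push_cast
    linear_combination (c : ℂ) * hx
  have h2 : ∀ i, ev (N := 2) h (vc (crs h (H i))) = 0 := by
    intro i
    rw [ev_vc, dt3_left, Rat.cast_zero]
  have h3 : ∀ i, ev (N := 2) (H i) (vc (crs h (H i))) = 0 := by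
    intro i
    rw [ev_vc, dt3_right, Rat.cast_zero]
  obtain ⟨k, l, hkl, c, hc⟩ := hG (fun k => vc (crs h (H (f k)))) (fun k => vc_ne (h1 _))
    (fun k => (hh _).2 (h2 _)) (fun k => ⟨f k, h3 _⟩)
  refine ⟨k, l, hkl, ?_⟩
  have h4 : ev (N := 2) (H (f l)) (vc (crs h (H (f k)))) = 0 := by
    have h5 := congrArg (ev (N := 2) (H (f l))) hc
    rw [ev_smul, h3, mul_zero] at h5
    exact h5
  obtain ⟨a, ha, hv⟩ := common hH (fun e => hkl (hf e)) (vc_ne (h1 (f k))) (h3 (f k)) h4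
  have h6 := h2 (f k)
  rw [hv, ev_smul] at h6
  have h7 := (mul_eq_zero.1 h6).resolve_left ha
  rw [ev_vc] at h7
  exact_mod_cast h7

/-- two lines with the same double points -/
lemma line (hH : GP3 H) {G G' : MvPolynomial (Fin 3) ℚ} (hG : At4 H G) (ha : Lin G)
    (ha' : Lin G')
    (hz : ∀ i j, i ≠ j → (aeval (vc (V H i j)) G = 0 ↔ aeval (vc (V H i j)) G' = 0))
    (x : Fin 3 → ℂ) (hx : aeval x G = 0) : aeval x G' = 0 := by
  obtain ⟨h, h0, hh⟩ := ha
  obtain ⟨h', h0', hh'⟩ := ha'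
  obtain ⟨k, l, hkl, d1⟩ := double hH hG h0 hh (Fin.succAbove 0)
    Fin.succAbove_right_injective
  set a := (0 : Fin 6).succAbove k
  set b := (0 : Fin 6).succAbove l
  have hab : a ≠ b := fun e => hkl (Fin.succAbove_right_injective e)
  obtain ⟨k', l', hkl', d2⟩ := double hH hG h0 hh (Fin.succAbove a)
    Fin.succAbove_right_injective
  set c := a.succAbove k' with hc
  set d := a.succAbove l' with hd
  have hcd : c ≠ d := fun e => hkl' (Fin.succAbove_right_injective e)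
  have hca : c ≠ a := Fin.succAbove_ne a k'
  have hda : d ≠ a := Fin.succAbove_ne a l'
  have tr : ∀ i j, i ≠ j → dt3 h (V H i j) = 0 → dt3 h' (V H i j) = 0 := by
    intro i j hij e
    have e1 : aeval (vc (V H i j)) G = 0 := by
      rw [hh, ev_vc, e, Rat.cast_zero]
    have e2 := (hh' _).1 ((hz i j hij).1 e1)
    rw [ev_vc] at e2
    exact_mod_cast e2
  have hn : crs (V H a b) (V H c d) ≠ 0 := by
    intro e
    obtain ⟨r, hr⟩ := prop_of (Vne0 hH hab) e
    have e1 : dt3 (H a) (V H c d) = 0 := by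
      rw [hr]
      have := dt3_left (H a) (H b)
      unfold dt3 at this ⊢
      simp only [Pi.smul_apply, smul_eq_mul]
      linear_combination r * this
    exact V_ne hH hcd hca hda e1
  obtain ⟨r, hr⟩ := prop_of hn (crs_perp d1 d2)
  obtain ⟨r', hr'⟩ := prop_of hn (crs_perp (tr a b hab d1) (tr c d hcd d2))
  have hr0 : (r : ℂ) ≠ 0 := by
    intro e
    have e' : r = 0 := by exact_mod_cast e
    rw [e', zero_smul] at hr
    exact h0 hr
  have hx1 := (hh x).1 hx
  refine (hh' x).2 ?_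
  rw [hr, ev3] at hx1
  rw [hr', ev3]
  simp only [Pi.smul_apply, smul_eq_mul] at hx1 ⊢
  push_cast at hx1 ⊢
  have h8 : (r : ℂ) * ((crs (V H a b) (V H c d) 0 : ℂ) * x 0 + (crs (V H a b) (V H c d) 1 : ℂ) * x 1 +
      (crs (V H a b) (V H c d) 2 : ℂ) * x 2) = 0 := by linear_combination hx1
  have h9 := (mul_eq_zero.1 h8).resolve_left hr0
  linear_combination (r' : ℂ) * h9

/-- choice of representatives -/
lemma fin_of {α β : Type} [Nonempty α] [Finite β] (P : α → Prop) (δ : α → β) (R : α → α → Prop)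
    (h : ∀ a a', P a → P a' → δ a = δ a' → R a a') :
    ∃ s : Finset α, (∀ a ∈ s, P a) ∧ ∀ a, P a → ∃ a' ∈ s, R a a' := by
  classical
  set B : Set β := {b | ∃ a, P a ∧ δ a = b} with hB
  have hfin : B.Finite := Set.toFinite B
  choose! f hf using (fun b (hb : b ∈ B) => (hb : ∃ a, P a ∧ δ a = b))
  refine ⟨hfin.toFinset.image f, ?_, ?_⟩
  · intro a ha
    obtain ⟨b, hb, rfl⟩ := Finset.mem_image.1 ha
    exact (hf b (hfin.mem_toFinset.1 hb)).1
  · intro a ha
    have hb : δ a ∈ B := ⟨a, ha, rfl⟩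
    exact ⟨f (δ a), Finset.mem_image.2 ⟨δ a, hfin.mem_toFinset.2 hb, rfl⟩,
      h a _ ha (hf _ hb).1 (hf _ hb).2.symm⟩

/-- Job FINB -/
theorem finb (hfina : FinaStmt) : FinStmt := by
  classical
  intro q H₀ hq hH₀
  set H : Fin 6 → Fin 3 → ℚ := fun i => H₀ (Fin.castLE hq i) with hHd
  have hH : GP3 H := by
    intro i j k h1 h2 h3
    exact hH₀ _ _ _ (fun e => h1 (Fin.castLE_injective hq e)) (fun e => h2 (Fin.castLE_injective hq e))
      (fun e => h3 (Fin.castLE_injective hq e))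
  have hat : ∀ G, Crv H₀ G → At4 H G := by
    intro G hG p hp0 hp1 hp2
    exact hG.at4 p hp0 hp1 (fun k => by
      obtain ⟨i, hi⟩ := hp2 k
      exact ⟨_, hi⟩)
  have hlin1 : ∀ G, Crv H₀ G → G.IsHomogeneous 1 → Lin G := by
    intro G hG h1
    obtain ⟨h, hh⟩ := linf h1
    refine ⟨h, ?_, fun x => by rw [hh]⟩
    rintro rfl
    apply not_line hH (hat G hG) 0
    intro x _
    rw [hh, ev3]
    simp
  have halt : ∀ G, Crv H₀ G → ¬ Lin G → G.IsHomogeneous 2 ∧ Alt H fun x => aeval x G := by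
    intro G hG hl
    obtain ⟨d, hd, hdG⟩ := hG.deg
    rcases hd with rfl | rfl
    · exact absurd (hlin1 G hG hdG) hl
    · refine ⟨hdG, ?_⟩
      rcases hfina H hH G hdG hG.ne (hat G hG) with h | h
      · exact absurd h hl
      · exact h
  refine fin_of (β := Prop × (Fin 6 → Fin 6 → Prop)) (fun G => Crv H₀ G)
    (fun G => (Lin G, fun i j => aeval (vc (V H i j)) G = 0))
    (fun G G' => ∀ x : Fin 3 → ℂ, aeval x G = 0 → aeval x G' = 0) ?_
  intro G G' hG hG' hδ
  rw [Prod.mk.injEq] at hδ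
  obtain ⟨h1, h2⟩ := hδ
  have hz : ∀ i j, i ≠ j → (aeval (vc (V H i j)) G = 0 ↔ aeval (vc (V H i j)) G' = 0) :=
    fun i j _ => iff_of_eq (congrFun (congrFun h2 i) j)
  by_cases hl : Lin G
  · have hl' : Lin G' := by rw [← h1]; exact hl
    exact line hH (hat G hG) hl hl' hz
  · have hl' : ¬ Lin G' := by rw [← h1]; exact hl
    obtain ⟨a1, a2⟩ := halt G hG hl
    obtain ⟨b1, b2⟩ := halt G' hG' hl'
    exact conic hH a1 b1 (hat G hG) a2 b2 hz

end Pool.Agent.Y734.I.FINB
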